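import Pool.Agent.Helper28.Hilb8.Low
import Pool.Agent.Helper97.Hilb8.Charts

/-!
# Points of charts over power series rings, to first order
-/

universe u

namespace Pool.Agent.Helper28.Hilb8

open MvPolynomial Pool.Agent.Helper97.Hilb8

section

variable {σ : Type*} [DecidableEq σ] {k : Type*} [Field k] {F : Type*} [CommRing F] [Algebra k F]

open LowAux TopAux in
/-- The lowest forms of elements of `I` are killed by the lowest form of a family. -/
theorem theta_low {w : σ → ℕ} {I : Ideal (MvPolynomial σ k)} {θ : MvPolynomial σ k →ₐ[k] F}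
    (hθ : HasFam w I θ) {f g : MvPolynomial σ k} {d : ℕ} (hf : f ∈ I) (hb : IsBot w f g d) :
    θ g = 0 := by
  obtain ⟨ψ, hψI, hψ⟩ := hθ
  rw [isBot_iff] at hb
  have h1 := coeff_fam (θ := θ) (ψ := ψ) hψ d f (fun e he => by
    rw [hb.2 e (by omega), hb.1 e (by omega)])
  have h2 : comp w d f = g := by
    ext e
    rw [coeff_comp]
    split_ifs with h
    · exact hb.2 e (by omega)
    · exact (hb.1 e h).symm
  rw [h2, hψI f hf, map_zero] at h1
  exact h1.symm

end

section

variable {F : Type u} [Field F]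

/-- Commuting operators on a free module over a power series ring with a cyclic vector give a
point of the chart; its first order part is given by linear algebra. -/
theorem exists_point (C : Chart) (M : Fin 4 → Module.End (PowerSeries F) (Fin 8 → PowerSeries F))
    (hM : ∀ i j, M i * M j = M j * M i) (e : Fin 8 → PowerSeries F)
    (P0 : Matrix (Fin 8) (Fin 8) F) (hP0 : P0.det ≠ 0)
    (hP : ∀ c r : Fin 8, PowerSeries.coeff 0 (C.monoEl M c e r) = P0 r c)
    (hu : ∀ β < C.nb, ∀ r, PowerSeries.coeff 0 (C.monoEl M (8 + β) e r) = 0) :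
    ∃ a : ℕ → PowerSeries F, C.IsPt a ∧ (∀ v < 8 * C.nb, PowerSeries.coeff 0 (a v) = 0) ∧
      ∀ β < C.nb, ∀ r, ∑ c : Fin 8, P0 r c * PowerSeries.coeff 1 (a (8 * β + c)) =
        PowerSeries.coeff 1 (C.monoEl M (8 + β) e r) := by
  classical
  set Pm : Matrix (Fin 8) (Fin 8) (PowerSeries F) := Matrix.of fun r c => C.monoEl M c e r with hPm
  have hmap : Pm.map (PowerSeries.constantCoeff (R := F)) = P0 := by
    ext r c
    rw [Matrix.map_apply, hPm, Matrix.of_apply, ← hP c r, PowerSeries.coeff_zero_eq_constantCoeff]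
  have hdet : IsUnit Pm.det := by
    rw [PowerSeries.isUnit_iff_constantCoeff, RingHom.map_det, RingHom.mapMatrix_apply, hmap]
    exact isUnit_iff_ne_zero.mpr hP0
  let E := Matrix.toLinearEquiv (Pi.basisFun (PowerSeries F) (Fin 8)) Pm hdet
  let b := (Pi.basisFun (PowerSeries F) (Fin 8)).map E
  have hb : ∀ c : Fin 8, b c = C.monoEl M c e := by
    intro c
    change E (Pi.basisFun (PowerSeries F) (Fin 8) c) = _
    rw [Matrix.toLinearEquiv_apply, Matrix.toLin_self]
    ext1 r
    simp only [Finset.sum_apply, Pi.smul_apply, Pi.basisFun_apply, smul_eq_mul, Pi.single_apply,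
      mul_ite, mul_one, mul_zero, Finset.sum_ite_eq, Finset.mem_univ, if_true]
    rw [hPm, Matrix.of_apply]
  set a : ℕ → PowerSeries F := C.coord b M e with ha
  have hpt : C.IsPt a := C.isPt_coord b M hM e hb
  have hsum : ∀ β < C.nb, ∀ r, ∑ c : Fin 8, Pm r c * a (8 * β + c) = C.monoEl M (8 + β) e r := by
    intro β _ r
    have h1 := b.sum_repr (C.monoEl M (8 + β) e)
    have h2 := congrFun h1 r
    rw [← h2, Finset.sum_apply]
    apply Finset.sum_congr rfl
    intro c _
    have h3 : 8 + (8 * β + (c : ℕ)) / 8 = 8 + β := by omega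
    have h4 : (8 * β + (c : ℕ)) % 8 = c := by omega
    have h5 : a (8 * β + (c : ℕ)) = b.repr (C.monoEl M (8 + β) e) c := by
      rw [ha]
      unfold Chart.coord
      rw [h3]
      exact congrArg (b.repr (C.monoEl M (8 + β) e)) (Fin.ext h4)
    rw [Pi.smul_apply, smul_eq_mul, hb, hPm, Matrix.of_apply, mul_comm, h5]
  have hz : ∀ β < C.nb, ∀ c : Fin 8, PowerSeries.coeff 0 (a (8 * β + c)) = 0 := by
    intro β hβ
    have h1 : P0.mulVec (fun c : Fin 8 => PowerSeries.coeff 0 (a (8 * β + c))) = 0 := by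
      ext r
      rw [Matrix.mulVec, dotProduct, Pi.zero_apply, ← hu β hβ r, ← hsum β hβ r, map_sum]
      apply Finset.sum_congr rfl
      intro c _
      rw [PowerSeries.coeff_zero_eq_constantCoeff, map_mul,
        ← PowerSeries.coeff_zero_eq_constantCoeff, hPm, Matrix.of_apply, hP]
    have h2 := Matrix.eq_zero_of_mulVec_eq_zero hP0 h1
    intro c
    exact congrFun h2 c
  refine ⟨a, hpt, ?_, ?_⟩
  · intro v hv
    have h1 : v = 8 * (v / 8) + ((⟨v % 8, Nat.mod_lt _ (by norm_num)⟩ : Fin 8) : ℕ) := by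
      simp only; omega
    rw [h1]
    exact hz (v / 8) (by omega) _
  · intro β hβ r
    rw [← hsum β hβ r, map_sum]
    apply Finset.sum_congr rfl
    intro c _
    rw [PowerSeries.coeff_one_mul]
    have h5 : PowerSeries.constantCoeff (a (8 * β + c)) = 0 := by
      rw [← PowerSeries.coeff_zero_eq_constantCoeff]
      exact hz β hβ c
    have h6 : PowerSeries.constantCoeff (Pm r c) = P0 r c := by
      rw [← hmap, Matrix.map_apply]
    rw [h5, h6, mul_zero, zero_add, mul_comm]

/-- The family given by a point with zero constant coefficients. -/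
theorem hasFam_of_point (C : Chart) (k : Type*) [Field k] [Algebra k F] (a : ℕ → PowerSeries F)
    (ha : C.IsPt a) (h0 : ∀ v < 8 * C.nb, PowerSeries.coeff 0 (a v) = 0) :
    ∃ θ : MvPolynomial (Fin (8 * C.nb)) k →ₐ[k] F, HasFam (fun _ => 1) (C.ideal k) θ ∧
      ∀ v : Fin (8 * C.nb), θ (X v) = PowerSeries.coeff 1 (a v) := by
  refine ⟨aeval (fun v : Fin (8 * C.nb) => PowerSeries.coeff 1 (a v)),
    ⟨aeval (fun v : Fin (8 * C.nb) => a v), C.eval_ideal k a ha, ?_⟩, fun v => aeval_X _ _⟩
  intro v
  rw [aeval_X, aeval_X]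
  refine ⟨?_, rfl⟩
  intro n hn
  have h1 : n < 1 := hn
  have : n = 0 := by omega
  rw [this]
  exact h0 v v.2

end

end Pool.Agent.Helper28.Hilb8
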