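import Pool.Agent.Helper97.Hilb8.Charts

/-!
# Charts: lifting to a radical ideal containing the chart ideal, near the origin
-/

universe u

namespace Pool.Agent.Helper28.Hilb8

open MvPolynomial Pool.Agent.Helper97.Hilb8

/-- Families in the chart lift to a point of the chart over a reduced ring. -/
theorem versalLift_of_pt (C : Chart) (k : Type u) [Field k] (R : Type u) [CommRing R] [Algebra k R]
    [_root_.IsReduced R] (a : ℕ → R) (ha : C.IsPt a)
    (O : Type u) [CommRing O] [Algebra k O] (A : Type u) [CommRing A] [Algebra O A]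
    (x : Fin 4 → A) (b : Module.Basis (Fin 8) O A) (hb : ∀ c : Fin 8, b c = C.monoEl x c)
    (χ : R →ₐ[k] O)
    (hχ : ∀ v < 8 * C.nb, χ (a v) = C.coord b (fun i => LinearMap.mulLeft O (x i)) 1 v) :
    VersalLift k O A := by
  classical
  set X : Fin 4 → Module.End O A := fun i => LinearMap.mulLeft O (x i) with hX
  have hXc : ∀ i j, X i * X j = X j * X i := by
    intro i j
    ext m
    simp only [hX, Module.End.mul_apply, LinearMap.mulLeft_apply]
    ring
  have hmono : ∀ n : ℕ, C.monoEl X n = LinearMap.mulLeft O (C.monoEl x n) := fun n =>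
    (C.map_monoEl (Algebra.lmul O A) x n).symm
  have hb' : ∀ c : Fin 8, b c = C.monoEl X c 1 := by
    intro c
    rw [hmono, LinearMap.mulLeft_apply, mul_one, hb]
  set t : ℕ → O := C.coord b X 1 with ht
  have hmat : ∀ i, C.mat t i = Algebra.leftMulMatrix b (x i) := fun i =>
    C.mat_coord b X hXc 1 hb' i
  have hχm : ∀ i, (C.mat a i).map χ = C.mat t i :=
    fun i => C.map_mat (χ : _ →+* O) a t hχ i
  let _ := C.ueRing a ha
  let f : C.UE a →+* Matrix (Fin 8) (Fin 8) O :=
    (RingHom.mapMatrix (χ : _ →+* O)).comp (C.UE a).val.toRingHom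
  have hinj : Function.Injective (Algebra.leftMulMatrix b) := Algebra.leftMulMatrix_injective b
  have hf : ∀ m : C.UE a, ∃ y : A, Algebra.leftMulMatrix b y = f m := by
    rintro ⟨m, hm⟩
    change ∃ y : A, Algebra.leftMulMatrix b y = m.map χ
    induction hm using Algebra.adjoin_induction with
    | mem m h =>
      obtain ⟨i, rfl⟩ := h
      exact ⟨x i, by rw [hχm, hmat]⟩
    | algebraMap r =>
      refine ⟨algebraMap O A (χ r), ?_⟩
      rw [AlgHom.commutes]
      ext i j
      simp only [Matrix.algebraMap_matrix_apply, Matrix.map_apply]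
      split_ifs <;> simp
    | add m n _ _ hm hn =>
      obtain ⟨y, hy⟩ := hm
      obtain ⟨z, hz⟩ := hn
      exact ⟨y + z, by rw [map_add, hy, hz, Matrix.map_add _ (fun a b => map_add χ a b)]⟩
    | mul m n _ _ hm hn =>
      obtain ⟨y, hy⟩ := hm
      obtain ⟨z, hz⟩ := hn
      refine ⟨y * z, ?_⟩
      rw [map_mul, hy, hz]
      exact (Matrix.map_mul (f := (χ : R →+* O))).symm
  choose g hg using hf
  let φ : C.UE a →+* A :=
    { toFun := g
      map_one' := hinj (by rw [hg, map_one, map_one])
      map_mul' := fun m n => hinj (by rw [hg, map_mul, map_mul, hg, hg])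
      map_zero' := hinj (by rw [hg, map_zero, map_zero])
      map_add' := fun m n => hinj (by rw [hg, map_add, map_add, hg, hg]) }
  refine ⟨R, inferInstance, inferInstance,
    C.UE a, C.ueRing a ha, inferInstance, C.ub a ha, χ, φ, b, inferInstance, ?_, ?_⟩
  · intro r
    apply hinj
    change Algebra.leftMulMatrix b (g _) = _
    rw [hg, AlgHom.commutes]
    change (algebraMap _ (Matrix (Fin 8) (Fin 8) _) r).map χ = _
    ext i j
    simp only [Matrix.algebraMap_matrix_apply, Matrix.map_apply]
    split_ifs <;> simp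
  · intro c
    apply hinj
    change Algebra.leftMulMatrix b (g _) = _
    rw [hg, C.ub_apply, hb]
    change RingHom.mapMatrix (χ : R →+* O)
        (((C.monoEl (C.ug a) c : C.UE a)) : Matrix (Fin 8) (Fin 8) R) = _
    rw [C.coe_monoEl, C.map_monoEl, C.map_monoEl]
    congr 1
    funext i
    rw [← hmat, ← hχm]
    rfl

/-- The coordinates of the chart over the quotient by an ideal containing the chart ideal. -/
theorem isPt_of_le (C : Chart) (k : Type u) [Field k] (K : Ideal (MvPolynomial (Fin (8 * C.nb)) k))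
    (hK : C.ideal k ≤ K) : C.IsPt (fun v => Ideal.Quotient.mk K (C.var k v)) := by
  intro i j
  have h1 := C.map_mat (Ideal.Quotient.mk K) (C.var k)
    (fun v => Ideal.Quotient.mk K (C.var k v)) (fun v _ => rfl)
  rw [← h1, ← h1, ← Matrix.map_mul, ← Matrix.map_mul, ← sub_eq_zero,
    ← Matrix.map_sub _ (fun x y => map_sub _ x y)]
  ext r c
  rw [Matrix.map_apply, Matrix.zero_apply, Ideal.Quotient.eq_zero_iff_mem]
  exact hK (Ideal.subset_span ⟨i, j, r, c, rfl⟩)

/-- Families in the chart whose classifying map kills a radical ideal `K ≥ C.ideal k`. -/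
theorem versalLift_of_le (C : Chart) (k : Type u) [Field k]
    (K : Ideal (MvPolynomial (Fin (8 * C.nb)) k)) (hK : C.ideal k ≤ K) (hrad : K.IsRadical)
    (O : Type u) [CommRing O] [Algebra k O] (A : Type u) [CommRing A] [Algebra O A]
    (x : Fin 4 → A) (b : Module.Basis (Fin 8) O A) (hb : ∀ c : Fin 8, b c = C.monoEl x c)
    (hχ : ∀ p ∈ K, aeval (fun v : Fin (8 * C.nb) =>
      C.coord b (fun i => LinearMap.mulLeft O (x i)) 1 v) p = 0) :
    VersalLift k O A := by
  have hred : _root_.IsReduced (MvPolynomial (Fin (8 * C.nb)) k ⧸ K) :=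
    (Ideal.isRadical_iff_quotient_reduced K).mp hrad
  refine versalLift_of_pt C k (MvPolynomial (Fin (8 * C.nb)) k ⧸ K)
    (fun v => Ideal.Quotient.mk K (C.var k v)) (isPt_of_le C k K hK) O A x b hb
    (Ideal.Quotient.liftₐ K _ hχ) ?_
  intro v hv
  change (aeval (fun v : Fin (8 * C.nb) =>
      C.coord b (fun i => LinearMap.mulLeft O (x i)) 1 v)) (C.var k v) = _
  unfold Chart.var
  rw [dif_pos hv]
  simp

/-- The chart is reduced near the origin. -/
def LocRed (C : Chart) (k : Type u) [Field k] : Prop :=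
  ∃ K : Ideal (MvPolynomial (Fin (8 * C.nb)) k), C.ideal k ≤ K ∧ K.IsRadical ∧
    ∃ h : MvPolynomial (Fin (8 * C.nb)) k, constantCoeff h ≠ 0 ∧ ∀ p ∈ K, h * p ∈ C.ideal k

/-- The pairing of the weights `lam` of `x₁,…,x₄` with the monomial number `n`. -/
def pr (C : Chart) (lam : Fin 4 → ℕ) (n : ℕ) : ℕ := ∑ i, lam i * C.mono n i

section Scale

variable (C : Chart) {O : Type u} [CommRing O] {A : Type u} [CommRing A] [Algebra O A]

theorem coord_eq (x : Fin 4 → A) (b : Module.Basis (Fin 8) O A) (v : ℕ) :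
    C.coord b (fun i => LinearMap.mulLeft O (x i)) 1 v =
      b.repr (C.monoEl x (8 + v / 8)) ⟨v % 8, Nat.mod_lt _ (by norm_num)⟩ := by
  unfold Chart.coord
  have hmono : C.monoEl (fun i => LinearMap.mulLeft O (x i)) (8 + v / 8) =
      LinearMap.mulLeft O (C.monoEl x (8 + v / 8)) :=
    (C.map_monoEl (Algebra.lmul O A) x _).symm
  rw [hmono, LinearMap.mulLeft_apply, mul_one]

theorem monoEl_smul (x : Fin 4 → A) (lam : Fin 4 → ℕ) (s : O) (n : ℕ) :
    C.monoEl (fun i => s ^ lam i • x i) n = s ^ pr C lam n • C.monoEl x n := by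
  unfold Chart.monoEl pr
  rw [Fin.sum_univ_four]
  simp only [Algebra.smul_def, mul_pow, map_pow, map_mul, pow_add, pow_mul]
  ring

/-- The rescaled basis. -/
noncomputable def scaleB (b : Module.Basis (Fin 8) O A) (lam : Fin 4 → ℕ) (s : O)
    (hs : IsUnit s) : Module.Basis (Fin 8) O A :=
  b.isUnitSMul (w := fun c : Fin 8 => s ^ pr C lam c) fun _ => hs.pow _

theorem scaleB_apply (x : Fin 4 → A) (b : Module.Basis (Fin 8) O A)
    (hb : ∀ c : Fin 8, b c = C.monoEl x c) (lam : Fin 4 → ℕ) (s : O) (hs : IsUnit s) (c : Fin 8) :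
    scaleB C b lam s hs c = C.monoEl (fun i => s ^ lam i • x i) c := by
  unfold scaleB
  rw [Module.Basis.isUnitSMul_apply, hb, monoEl_smul]

theorem coord_scale (x : Fin 4 → A) (b : Module.Basis (Fin 8) O A) (lam : Fin 4 → ℕ) (s : O)
    (hs : IsUnit s) (v : ℕ) (hv : pr C lam (v % 8) ≤ pr C lam (8 + v / 8)) :
    C.coord (scaleB C b lam s hs) (fun i => LinearMap.mulLeft O (s ^ lam i • x i)) 1 v =
      s ^ (pr C lam (8 + v / 8) - pr C lam (v % 8)) *
        C.coord b (fun i => LinearMap.mulLeft O (x i)) 1 v := by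
  rw [coord_eq, coord_eq, monoEl_smul, map_smul]
  unfold scaleB
  rw [Finsupp.smul_apply, Module.Basis.repr_isUnitSMul, smul_eq_mul, Units.smul_def, smul_eq_mul]
  obtain ⟨d, hd⟩ := Nat.exists_eq_add_of_le hv
  rw [hd, Nat.add_sub_cancel_left, pow_add]
  have h1 : s ^ pr C lam (v % 8) * (((hs.pow (pr C lam (v % 8))).unit⁻¹ : Oˣ) : O) = 1 := by
    rw [IsUnit.mul_val_inv]
  calc s ^ pr C lam (v % 8) * s ^ d * ((((hs.pow (pr C lam (v % 8))).unit⁻¹ : Oˣ) : O) *
        b.repr (C.monoEl x (8 + v / 8)) ⟨v % 8, Nat.mod_lt _ (by norm_num)⟩)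
      = (s ^ pr C lam (v % 8) * (((hs.pow (pr C lam (v % 8))).unit⁻¹ : Oˣ) : O)) * (s ^ d *
        b.repr (C.monoEl x (8 + v / 8)) ⟨v % 8, Nat.mod_lt _ (by norm_num)⟩) := by ring
    _ = _ := by rw [h1, one_mul]

end Scale

/-- A chart that is reduced near the origin has versal lifts for all families over local rings
whose closed fibre is contracted to the origin by a torus. -/
theorem versalLift_loc (C : Chart) (k : Type u) [Field k] [Infinite k] (hloc : LocRed C k)
    (lam : Fin 4 → ℕ) (hlam : ∀ v < 8 * C.nb, pr C lam (v % 8) ≤ pr C lam (8 + v / 8))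
    (O : Type u) [CommRing O] [IsLocalRing O] [Algebra k O] (A : Type u) [CommRing A] [Algebra O A]
    (x : Fin 4 → A) (b : Module.Basis (Fin 8) O A) (hb : ∀ c : Fin 8, b c = C.monoEl x c)
    (h0 : ∀ v < 8 * C.nb, pr C lam (8 + v / 8) ≤ pr C lam (v % 8) →
      IsLocalRing.residue O (C.coord b (fun i => LinearMap.mulLeft O (x i)) 1 v) = 0) :
    VersalLift k O A := by
  classical
  obtain ⟨K, hK, hrad, h, hh, hhK⟩ := hloc
  set c : ℕ → O := C.coord b (fun i => LinearMap.mulLeft O (x i)) 1 with hc
  set ρ : ℕ → ℕ := fun v => pr C lam (8 + v / 8) - pr C lam (v % 8) with hρ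
  let κ := IsLocalRing.ResidueField O
  let f : k →+* κ := (IsLocalRing.residue O).comp (algebraMap k O)
  -- the polynomial in `t`
  let P : Polynomial κ := eval₂ (Polynomial.C.comp f)
    (fun v : Fin (8 * C.nb) => Polynomial.C (IsLocalRing.residue O (c v)) * Polynomial.X ^ ρ v) h
  have hP0 : P.eval 0 ≠ 0 := by
    have h1 : P.eval 0 = f (constantCoeff h) := by
      have h2 : P.eval 0 = eval₂ f (fun _ : Fin (8 * C.nb) => (0 : κ)) h := by
        change (Polynomial.evalRingHom 0) P = _
        rw [hom_eval₂]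
        congr 1
        · ext r
          simp
        · funext v
          simp only [map_mul, Polynomial.coe_evalRingHom, Polynomial.eval_C, map_pow,
            Polynomial.eval_X]
          by_cases hv : ρ v = 0
          · rw [hc, h0 v v.2 (by simp only [hρ] at hv; omega), zero_mul]
          · rw [zero_pow hv, mul_zero]
      rw [h2]
      have h3 : (eval₂Hom f (fun _ : Fin (8 * C.nb) => (0 : κ))) h = f (constantCoeff h) := by
        have : eval₂Hom f (fun _ : Fin (8 * C.nb) => (0 : κ)) = f.comp constantCoeff := by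
          ext <;> simp
        rw [this]
        rfl
      exact h3
    rw [h1]
    exact (map_ne_zero f).mpr hh
  obtain ⟨t, ht0, ht⟩ : ∃ t : k, t ≠ 0 ∧ P.eval (f t) ≠ 0 := by
    by_contra hne
    push Not at hne
    have h1 : (Polynomial.X * P).IsRoot (f 0) ∧ ∀ t : k, (Polynomial.X * P).IsRoot (f t) := by
      refine ⟨by simp [Polynomial.IsRoot], fun t => ?_⟩
      by_cases ht : t = 0
      · rw [ht]; simp [Polynomial.IsRoot]
      · rw [Polynomial.IsRoot, Polynomial.eval_mul, hne t ht, mul_zero]
    have h2 : Polynomial.X * P = 0 := by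
      apply Polynomial.eq_zero_of_infinite_isRoot
      refine Set.Infinite.mono ?_ (Set.infinite_range_of_injective f.injective)
      rintro _ ⟨t, rfl⟩
      exact h1.2 t
    have h3 : P = 0 := by
      rcases mul_eq_zero.mp h2 with h | h
      · exact absurd h Polynomial.X_ne_zero
      · exact h
    apply hP0
    rw [h3, Polynomial.eval_zero]
  set s : O := algebraMap k O t with hs
  have hsu : IsUnit s := (isUnit_iff_ne_zero.mpr ht0).map (algebraMap k O)
  have hc' : ∀ v < 8 * C.nb, C.coord (scaleB C b lam s hsu)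
      (fun i => LinearMap.mulLeft O (s ^ lam i • x i)) 1 v = s ^ ρ v * c v := fun v hv =>
    coord_scale C x b lam s hsu v (hlam v hv)
  have hunit : IsUnit (aeval (R := k) (fun v : Fin (8 * C.nb) =>
      C.coord (scaleB C b lam s hsu) (fun i => LinearMap.mulLeft O (s ^ lam i • x i)) 1 v) h) := by
    by_contra hnu
    have h1 : IsLocalRing.residue O (aeval (R := k) (fun v : Fin (8 * C.nb) =>
      C.coord (scaleB C b lam s hsu) (fun i => LinearMap.mulLeft O (s ^ lam i • x i)) 1 v) h) = 0 :=
      (IsLocalRing.residue_eq_zero_iff _).mpr ((IsLocalRing.mem_maximalIdeal _).mpr hnu)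
    apply ht
    rw [← h1, aeval_def, hom_eval₂]
    change (Polynomial.evalRingHom (f t)) P = _
    rw [hom_eval₂]
    congr 1
    · ext r
      simp [f]
    · funext v
      rw [hc' v v.2]
      simp only [map_mul, Polynomial.coe_evalRingHom, Polynomial.eval_C, map_pow,
        Polynomial.eval_X]
      rw [mul_comm]
      rfl
  refine versalLift_of_le C k K hK hrad O A (fun i => s ^ lam i • x i) (scaleB C b lam s hsu)
    (scaleB_apply C x b hb lam s hsu) ?_
  intro p hp
  have h1 := C.eval_ideal k _ (C.isPt_coord (scaleB C b lam s hsu)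
    (fun i => LinearMap.mulLeft O (s ^ lam i • x i)) ?_ 1 ?_) (h * p) (hhK p hp)
  · rw [map_mul] at h1
    exact (hunit.mul_right_eq_zero).mp h1
  · intro i j
    ext m
    simp only [Module.End.mul_apply, LinearMap.mulLeft_apply]
    ring
  · intro c
    have hmono : C.monoEl (fun i => LinearMap.mulLeft O (s ^ lam i • x i)) c =
        LinearMap.mulLeft O (C.monoEl (fun i => s ^ lam i • x i) c) :=
      (C.map_monoEl (Algebra.lmul O A) _ _).symm
    rw [hmono, LinearMap.mulLeft_apply, mul_one]
    exact scaleB_apply C x b hb lam s hsu c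

end Pool.Agent.Helper28.Hilb8
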