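import Pool.Agent.Helper97.Hilb8.Top

/-!
# Lowest forms and the local ring at the origin

If every element of a radical ideal `K ≥ I` has its lowest form in the ideal generated by lowest
forms of elements of `I`, then `K` and `I` agree near the origin.
-/

namespace Pool.Agent.Helper28.Hilb8

open MvPolynomial Pool.Agent.Helper97.Hilb8 Pool.Agent.Helper97.Hilb8.TopAux

variable {σ : Type*} [DecidableEq σ] {k : Type*} [Field k]

/-- `IsBot w f g d`: `g` is `w`-homogeneous of degree `d` and `f - g` has only monomials of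
`w`-weight larger than `d`. -/
def IsBot (w : σ → ℕ) (f g : MvPolynomial σ k) (d : ℕ) : Prop :=
  (∀ e ∈ g.support, wt w e = d) ∧ ∀ e ∈ (f - g).support, d < wt w e

/-- A family vanishing on `I`, over a ring of power series, with lowest forms given by `θ`. -/
def HasFam (w : σ → ℕ) (I : Ideal (MvPolynomial σ k)) {F : Type*} [CommRing F] [Algebra k F]
    (θ : MvPolynomial σ k →ₐ[k] F) : Prop :=
  ∃ ψ : MvPolynomial σ k →ₐ[k] PowerSeries F, (∀ p ∈ I, ψ p = 0) ∧
    ∀ v, (∀ n < w v, PowerSeries.coeff n (ψ (X v)) = 0) ∧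
      PowerSeries.coeff (w v) (ψ (X v)) = θ (X v)

namespace LowAux

omit [DecidableEq σ] in
theorem isBot_iff [DecidableEq σ] (w : σ → ℕ) (f g : MvPolynomial σ k) (d : ℕ) :
    IsBot w f g d ↔ (∀ e, wt w e ≠ d → coeff e g = 0) ∧
      ∀ e, wt w e ≤ d → coeff e f = coeff e g := by
  constructor
  · rintro ⟨h1, h2⟩
    constructor
    · intro e he
      by_contra hne
      exact he (h1 e (mem_support_iff.mpr hne))
    · intro e he
      by_contra hne
      have := h2 e (mem_support_iff.mpr (by rw [coeff_sub]; exact sub_ne_zero.mpr hne))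
      omega
  · rintro ⟨h1, h2⟩
    constructor
    · intro e he
      by_contra hne
      exact (mem_support_iff.mp he) (h1 e hne)
    · intro e he
      by_contra hne
      apply mem_support_iff.mp he
      rw [coeff_sub, h2 e (by omega), sub_self]

theorem isBot_zero (w : σ → ℕ) (d : ℕ) : IsBot w (0 : MvPolynomial σ k) 0 d := by
  rw [isBot_iff]
  exact ⟨fun _ _ => coeff_zero _, fun _ _ => rfl⟩

theorem isBot_add {w : σ → ℕ} {f g f' g' : MvPolynomial σ k} {d : ℕ} (h : IsBot w f g d)
    (h' : IsBot w f' g' d) : IsBot w (f + f') (g + g') d := by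
  rw [isBot_iff] at *
  refine ⟨fun e he => ?_, fun e he => ?_⟩
  · rw [coeff_add, h.1 e he, h'.1 e he, add_zero]
  · rw [coeff_add, coeff_add, h.2 e he, h'.2 e he]

theorem isBot_sub {w : σ → ℕ} {f g f' g' : MvPolynomial σ k} {d : ℕ} (h : IsBot w f g d)
    (h' : IsBot w f' g' d) : IsBot w (f - f') (g - g') d := by
  rw [isBot_iff] at *
  refine ⟨fun e he => ?_, fun e he => ?_⟩
  · rw [coeff_sub, h.1 e he, h'.1 e he, sub_zero]
  · rw [coeff_sub, coeff_sub, h.2 e he, h'.2 e he]

theorem isBot_monomial_mul {w : σ → ℕ} {f g : MvPolynomial σ k} {d : ℕ} (h : IsBot w f g d)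
    (m : σ →₀ ℕ) (c : k) : IsBot w (monomial m c * f) (monomial m c * g) (wt w m + d) := by
  rw [isBot_iff] at *
  refine ⟨fun e he => ?_, fun e he => ?_⟩
  · rw [coeff_monomial_mul']
    split_ifs with hm
    · have h1 : wt w (e - m) ≠ d := by
        intro h1
        apply he
        rw [← h1, ← wt_add, add_tsub_cancel_of_le hm]
      rw [h.1 _ h1, mul_zero]
    · rfl
  · rw [coeff_monomial_mul', coeff_monomial_mul']
    split_ifs with hm
    · have h1 : wt w (e - m) ≤ d := by
        have h2 : wt w m + wt w (e - m) = wt w e := by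
          rw [← wt_add, add_tsub_cancel_of_le hm]
        omega
      rw [h.2 _ h1]
    · rfl

theorem lemmaA' (w : σ → ℕ) (I' Qp : Ideal (MvPolynomial σ k)) (G : Set (MvPolynomial σ k))
    (hQp : Qp = Ideal.span G) (hG : ∀ g ∈ G, ∃ f ∈ I', ∃ d, IsBot w f g d)
    (q : MvPolynomial σ k) (hq : q ∈ Qp) :
    ∀ D, comp w D q ∈ Qp ∧ ∃ f ∈ I', IsBot w f (comp w D q) D := by
  have hadd : ∀ x y : MvPolynomial σ k,
      (∀ D, comp w D x ∈ Qp ∧ ∃ f ∈ I', IsBot w f (comp w D x) D) →
      (∀ D, comp w D y ∈ Qp ∧ ∃ f ∈ I', IsBot w f (comp w D y) D) →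
      (∀ D, comp w D (x + y) ∈ Qp ∧ ∃ f ∈ I', IsBot w f (comp w D (x + y)) D) := by
    intro x y hx hy D
    rw [comp_add]
    obtain ⟨h1, f, hf, h2⟩ := hx D
    obtain ⟨h3, f', hf', h4⟩ := hy D
    exact ⟨Qp.add_mem h1 h3, f + f', I'.add_mem hf hf', isBot_add h2 h4⟩
  have hzero : ∀ D, comp w D (0 : MvPolynomial σ k) ∈ Qp ∧
      ∃ f ∈ I', IsBot w f (comp w D (0 : MvPolynomial σ k)) D := by
    intro D
    have h0 : comp w D (0 : MvPolynomial σ k) = 0 := by rw [comp, map_zero]
    rw [h0]
    exact ⟨Qp.zero_mem, 0, I'.zero_mem, isBot_zero w D⟩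
  rw [hQp] at hq
  induction hq using Submodule.span_induction with
  | mem g hg =>
    intro D
    obtain ⟨f, hf, d, hfd⟩ := hG g hg
    have h1 := ((isBot_iff w f g d).mp hfd).1
    by_cases hD : D = d
    · subst hD
      rw [comp_eq_self w D g h1]
      exact ⟨hQp ▸ Ideal.subset_span hg, f, hf, hfd⟩
    · rw [comp_eq_zero w D d hD g h1]
      exact ⟨Qp.zero_mem, 0, I'.zero_mem, isBot_zero w D⟩
  | zero => exact hzero
  | add x y _ _ hx hy => exact hadd x y hx hy
  | smul a x _ hx =>
    rw [smul_eq_mul]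
    induction a using MvPolynomial.induction_on' with
    | monomial m c =>
      intro D
      rcases Nat.lt_or_ge D (wt w m) with h | h
      · rw [comp_monomial_mul_of_lt w D m c x h]
        exact ⟨Qp.zero_mem, 0, I'.zero_mem, isBot_zero w D⟩
      · obtain ⟨d, rfl⟩ := Nat.exists_eq_add_of_le h
        obtain ⟨h1, f, hf, h2⟩ := hx d
        rw [comp_monomial_mul]
        exact ⟨Qp.mul_mem_left _ h1, _, I'.mul_mem_left _ hf, isBot_monomial_mul h2 m c⟩
    | add p q hp hq =>
      rw [add_mul]
      exact hadd _ _ hp hq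

section Fam

variable {F : Type*} [CommRing F]

/-- The power series `u` starts with `t X^a`. -/
def St (u : PowerSeries F) (a : ℕ) (t : F) : Prop :=
  (∀ n < a, PowerSeries.coeff n u = 0) ∧ PowerSeries.coeff a u = t

theorem St.mul {u v : PowerSeries F} {a b : ℕ} {s t : F} (hu : St u a s) (hv : St v b t) :
    St (u * v) (a + b) (s * t) := by
  have h1 : ∀ i j : ℕ, i + j ≤ a + b → ¬ (i = a ∧ j = b) →
      PowerSeries.coeff i u * PowerSeries.coeff j v = 0 := by
    intro i j hij hne
    rcases Nat.lt_or_ge i a with h | h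
    · rw [hu.1 i h, zero_mul]
    · rw [hv.1 j (by omega), mul_zero]
  constructor
  · intro n hn
    rw [PowerSeries.coeff_mul]
    apply Finset.sum_eq_zero
    intro x hx
    rw [Finset.HasAntidiagonal.mem_antidiagonal] at hx
    exact h1 _ _ (by omega) (by omega)
  · rw [PowerSeries.coeff_mul, Finset.sum_eq_single (a, b)]
    · rw [hu.2, hv.2]
    · rintro ⟨i, j⟩ hx hne
      rw [Finset.HasAntidiagonal.mem_antidiagonal] at hx
      apply h1 _ _ (by exact le_of_eq hx)
      rintro ⟨h, h'⟩
      exact hne (Prod.ext h h')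
    · intro h
      exact absurd (Finset.HasAntidiagonal.mem_antidiagonal.mpr (by rfl)) h

variable [Algebra k F]

theorem st_monomial {w : σ → ℕ} {θ : MvPolynomial σ k →ₐ[k] F}
    {ψ : MvPolynomial σ k →ₐ[k] PowerSeries F}
    (h : ∀ v, St (ψ (X v)) (w v) (θ (X v))) (e : σ →₀ ℕ) :
    St (ψ (monomial e 1)) (wt w e) (θ (monomial e 1)) := by
  induction e using Finsupp.induction_linear with
  | zero =>
    have : (monomial (0 : σ →₀ ℕ) (1 : k)) = 1 := rfl
    rw [this, map_one, map_one, wt_eq_weight, map_zero]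
    refine ⟨fun n hn => absurd hn (Nat.not_lt_zero n), ?_⟩
    simp
  | add a b ha hb =>
    have : (monomial (a + b) (1 : k)) = monomial a 1 * monomial b 1 := by
      rw [monomial_mul, one_mul]
    rw [this, map_mul, map_mul, wt_add]
    exact ha.mul hb
  | single v n =>
    induction n with
    | zero =>
      have : (monomial (Finsupp.single v 0) (1 : k)) = 1 := by
        rw [Finsupp.single_zero]; rfl
      rw [this, map_one, map_one, wt_eq_weight, Finsupp.single_zero, map_zero]
      refine ⟨fun n hn => absurd hn (Nat.not_lt_zero n), ?_⟩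
      simp
    | succ n ih =>
      have : (monomial (Finsupp.single v (n + 1)) (1 : k)) = monomial (Finsupp.single v n) 1 * X v := by
        rw [X, monomial_mul, one_mul, Finsupp.single_add]
      have h2 : wt w (Finsupp.single v (n + 1)) = wt w (Finsupp.single v n) + w v := by
        rw [Finsupp.single_add, wt_add, wt_eq_weight, wt_eq_weight, Finsupp.weight_single,
          Finsupp.weight_single]
        simp
      rw [this, map_mul, map_mul, h2]
      exact ih.mul (h v)

theorem coeff_fam {w : σ → ℕ} {θ : MvPolynomial σ k →ₐ[k] F}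
    {ψ : MvPolynomial σ k →ₐ[k] PowerSeries F}
    (h : ∀ v, St (ψ (X v)) (w v) (θ (X v))) (d : ℕ) (p : MvPolynomial σ k)
    (hp : ∀ e, wt w e < d → coeff e p = 0) :
    PowerSeries.coeff d (ψ p) = θ (comp w d p) := by
  have h1 : ∀ e ∈ p.support, PowerSeries.coeff d (ψ (monomial e (coeff e p))) =
      θ (comp w d (monomial e (coeff e p))) := by
    intro e he
    have h2 : monomial e (coeff e p) = coeff e p • monomial e (1 : k) := by
      rw [smul_monomial, smul_eq_mul, mul_one]
    have h3 := st_monomial h e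
    have h9 : ∀ (n : ℕ) (u : PowerSeries F), PowerSeries.coeff n (coeff e p • u) =
        coeff e p • PowerSeries.coeff n u := fun _ _ => rfl
    have h4 : d ≤ wt w e := by
      by_contra hlt
      exact mem_support_iff.mp he (hp e (by omega))
    rcases Nat.eq_or_lt_of_le h4 with h5 | h5
    · have h6 : comp w d (monomial e (coeff e p)) = monomial e (coeff e p) := by
        apply comp_eq_self
        intro e' he'
        rw [coeff_monomial, if_neg]
        rintro rfl
        exact he' h5.symm
      rw [h6, h2, map_smul, h9, map_smul, h5, h3.2]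
    · have h6 : comp w d (monomial e (coeff e p)) = 0 := by
        apply comp_eq_zero w d (wt w e) (by omega)
        intro e' he'
        rw [coeff_monomial, if_neg]
        rintro rfl
        exact he' rfl
      rw [h6, h2, map_zero, map_smul, h9, h3.1 d h5, smul_zero]
  conv_lhs => rw [p.as_sum]
  conv_rhs => rw [p.as_sum]
  have h7 : comp w d (∑ v ∈ p.support, (monomial v) (coeff v p)) =
      ∑ v ∈ p.support, comp w d ((monomial v) (coeff v p)) := by
    unfold comp
    rw [map_sum]
  rw [h7, map_sum, map_sum, map_sum]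
  exact Finset.sum_congr rfl h1

end Fam

omit [DecidableEq σ] in
theorem wt_le_degree {w : σ → ℕ} {W : ℕ} (hW : ∀ v, w v ≤ W) (e : σ →₀ ℕ) :
    wt w e ≤ W * e.degree := by
  rw [wt, Finsupp.degree_apply, Finsupp.sum, Finset.mul_sum]
  apply Finset.sum_le_sum
  intro v _
  rw [mul_comm]
  exact Nat.mul_le_mul_right _ (hW v)

end LowAux

open LowAux in
/-- Lowest forms and Krull's intersection theorem (weights `0` are allowed). -/
theorem exists_loc [Finite σ] (w : σ → ℕ)
    (I : Ideal (MvPolynomial σ k)) (G : Set (MvPolynomial σ k))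
    (hG : ∀ g ∈ G, ∃ f ∈ I, ∃ d, IsBot w f g d)
    {ι : Type*} (F : ι → Type*) [∀ i, CommRing (F i)] [∀ i, IsDomain (F i)] [∀ i, Algebra k (F i)]
    (θ : ∀ i, MvPolynomial σ k →ₐ[k] F i) (hfam : ∀ i, HasFam w I (θ i))
    (hker : ∀ (d : ℕ) (p : MvPolynomial σ k), (∀ e ∈ p.support, wt w e = d) →
      (∀ i, θ i p = 0) → p ∈ Ideal.span G) :
    ∃ K : Ideal (MvPolynomial σ k), I ≤ K ∧ K.IsRadical ∧
      ∃ h : MvPolynomial σ k, constantCoeff h ≠ 0 ∧ ∀ p ∈ K, h * p ∈ I := by
  classical
  choose ψ hψI hψ using hfam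
  set K : Ideal (MvPolynomial σ k) := ⨅ i, RingHom.ker (ψ i) with hK
  have hmem : ∀ p, p ∈ K ↔ ∀ i, ψ i p = 0 := by
    intro p
    rw [hK, Ideal.mem_iInf]
    rfl
  have hIK : I ≤ K := fun p hp => (hmem p).mpr fun i => hψI i p hp
  have hrad : K.IsRadical := by
    apply Ideal.isRadical_iInf
    intro i
    exact (RingHom.ker_isPrime (ψ i : MvPolynomial σ k →+* PowerSeries (F i))).isRadical
  -- approximation
  have happ : ∀ N : ℕ, ∀ p ∈ K, ∃ q ∈ I, ∀ e, wt w e < N → coeff e (p - q) = 0 := by
    intro N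
    induction N with
    | zero => exact fun p _ => ⟨0, I.zero_mem, fun e he => absurd he (Nat.not_lt_zero _)⟩
    | succ N ih =>
      intro p hp
      obtain ⟨q, hq, hpq⟩ := ih p hp
      have hr : p - q ∈ K := K.sub_mem hp (hIK hq)
      have hc : ∀ i, θ i (comp w N (p - q)) = 0 := by
        intro i
        rw [← coeff_fam (hψ i) N (p - q) hpq, (hmem _).mp hr i, map_zero]
      have hhom : ∀ e ∈ (comp w N (p - q)).support, wt w e = N := by
        intro e he
        rw [mem_support_iff, coeff_comp] at he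
        by_contra hne
        rw [if_neg hne] at he
        exact he rfl
      have hs := hker N _ hhom hc
      obtain ⟨-, f, hf, hb⟩ := lemmaA' w I _ G rfl hG _ hs N
      have hcc : comp w N (comp w N (p - q)) = comp w N (p - q) := by
        apply comp_eq_self
        intro e he
        rw [coeff_comp, if_neg he]
      rw [hcc, isBot_iff] at hb
      refine ⟨q + f, I.add_mem hq hf, ?_⟩
      intro e he
      have h1 : coeff e (p - (q + f)) = coeff e (p - q) - coeff e f := by
        rw [coeff_sub, coeff_sub, coeff_add]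
        ring
      rw [h1, hb.2 e (by omega), coeff_comp]
      split_ifs with h2
      · exact sub_self _
      · rw [hpq e (by omega), sub_zero]
  -- Krull
  obtain ⟨W, hW0, hW⟩ : ∃ W, 0 < W ∧ ∀ v, w v ≤ W := by
    obtain ⟨W, hW⟩ := (Set.finite_range w).bddAbove
    exact ⟨W + 1, Nat.succ_pos _, fun v => (hW ⟨v, rfl⟩).trans (Nat.le_succ _)⟩
  have hkrull : ∀ p ∈ K, ∃ h : MvPolynomial σ k, constantCoeff h ≠ 0 ∧ h * p ∈ I := by
    intro p hp
    have h1 : (Ideal.Quotient.mk I p : MvPolynomial σ k ⧸ I) ∈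
        (⨅ i : ℕ, idealOfVars σ k ^ i • ⊤ : Submodule (MvPolynomial σ k) (MvPolynomial σ k ⧸ I)) := by
      rw [Submodule.mem_iInf]
      intro n
      obtain ⟨q, hq, hpq⟩ := happ (W * n) p hp
      have h2 : p - q ∈ idealOfVars σ k ^ n := by
        rw [mem_pow_idealOfVars_iff']
        intro e he
        apply hpq
        refine lt_of_le_of_lt (wt_le_degree hW e) ?_
        exact Nat.mul_lt_mul_of_pos_left he hW0
      have h3 : (Ideal.Quotient.mk I p : MvPolynomial σ k ⧸ I) = (p - q) • (1 : MvPolynomial σ k ⧸ I) := by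
        have h4 : (p - q) • (1 : MvPolynomial σ k ⧸ I) = Ideal.Quotient.mk I (p - q) := by
          change Ideal.Quotient.mk I ((p - q) * 1) = _
          rw [mul_one]
        rw [h4, eq_comm, Ideal.Quotient.eq]
        have : p - q - p = - q := by ring
        rw [this]
        exact I.neg_mem hq
      rw [h3]
      exact Submodule.smul_mem_smul h2 trivial
    rw [Ideal.mem_iInf_smul_pow_eq_bot_iff] at h1
    obtain ⟨⟨r, hr⟩, h2⟩ := h1
    refine ⟨1 - r, ?_, ?_⟩
    · have : constantCoeff r = 0 := by
        have h3 : idealOfVars σ k ≤ RingHom.ker (constantCoeff (σ := σ) (R := k)) := by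
          rw [idealOfVars, Ideal.span_le]
          rintro _ ⟨v, rfl⟩
          exact constantCoeff_X _ v
        exact h3 hr
      rw [map_sub, map_one, this, sub_zero]
      exact one_ne_zero
    · have h3 : (r : MvPolynomial σ k) • (Ideal.Quotient.mk I p) = Ideal.Quotient.mk I (r * p) := rfl
      rw [h3, eq_comm, Ideal.Quotient.eq] at h2
      have h4 : (1 - r) * p = p - r * p := by ring
      rw [h4]
      exact h2
  obtain ⟨S, hS⟩ : K.FG := IsNoetherian.noetherian K
  choose! h hh0 hh1 using hkrull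
  refine ⟨K, hIK, hrad, ∏ s ∈ S, h s, ?_, ?_⟩
  · rw [map_prod, Finset.prod_ne_zero_iff]
    intro s hs
    exact hh0 s (hS ▸ Submodule.subset_span hs)
  · intro p hp
    rw [← hS] at hp
    induction hp using Submodule.span_induction with
    | mem s hs =>
      rw [← Finset.mul_prod_erase S h hs, mul_comm (h s), mul_assoc]
      exact I.mul_mem_left _ (hh1 s (hS ▸ Submodule.subset_span hs))
    | zero => rw [mul_zero]; exact I.zero_mem
    | add x y _ _ hx hy => rw [mul_add]; exact I.add_mem hx hy
    | smul a x _ hx =>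
      rw [smul_eq_mul, mul_left_comm]
      exact I.mul_mem_left _ hx

end Pool.Agent.Helper28.Hilb8
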